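import Mathlib

set_option autoImplicit false

namespace Pool.Agent.Results.MP_5a03e9_nt.NoSparseSet

open Filter Finset

/-- upper Banach density: limsup of `|E ∩ [M,N)| / (N - M)` as `N - M → ∞` -/
noncomputable def upperBanach (E : Set ℕ) : ℝ :=
  limsup (fun p : ℕ × ℕ => ((E ∩ Set.Ico p.1 p.2).ncard : ℝ) / ((p.2 - p.1 : ℕ) : ℝ))
    (comap (fun p : ℕ × ℕ => p.2 - p.1) atTop)

/-- upper relative density of `A` in `E` -/
noncomputable def relUpper (E A : Set ℕ) : ℝ :=
  limsup (fun N : ℕ => ((A ∩ Set.Icc 1 N).ncard : ℝ) / ((E ∩ Set.Icc 1 N).ncard : ℝ)) atTop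

/-- the difference set `A - A` in the integers -/
def diffSet (A : Set ℕ) : Set ℤ := {z | ∃ a ∈ A, ∃ b ∈ A, z = (a : ℤ) - (b : ℤ)}

/-- every block of `L` consecutive integers meets `S`, for some `L ≥ 1` -/
def Syndetic (S : Set ℤ) : Prop := ∃ L : ℕ, 1 ≤ L ∧ ∀ m : ℤ, ∃ s ∈ S, m ≤ s ∧ s < m + L

open Classical in
lemma ncard_Ico (E : Set ℕ) (a b : ℕ) :
    (E ∩ Set.Ico a b).ncard = ((Ico a b).filter (· ∈ E)).card := by
  rw [← Set.ncard_coe_finset]; congr 1; ext x; simp [and_comm]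

open Classical in
lemma ncard_Icc (E : Set ℕ) (a b : ℕ) :
    (E ∩ Set.Icc a b).ncard = ((Icc a b).filter (· ∈ E)).card := by
  rw [← Set.ncard_coe_finset]; congr 1; ext x; simp [and_comm]

open Classical in
lemma sparse (E : Set ℕ) (hd : upperBanach E = 0) (δ : ℝ) (hδ : 0 < δ) :
    ∃ K : ℕ, ∀ z L : ℕ, K ≤ L → (((Ico z (z + L)).filter (· ∈ E)).card : ℝ) ≤ δ * L := by
  have hb : IsBoundedUnder (· ≤ ·) (comap (fun p : ℕ × ℕ => p.2 - p.1) atTop)
      (fun p : ℕ × ℕ => ((E ∩ Set.Ico p.1 p.2).ncard : ℝ) / ((p.2 - p.1 : ℕ) : ℝ)) := by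
    refine isBoundedUnder_of ⟨1, fun p => ?_⟩
    apply div_le_one_of_le₀ _ (by positivity)
    rw [ncard_Ico]
    exact_mod_cast (card_filter_le _ _).trans (by simp)
  have h := eventually_lt_of_limsup_lt (show upperBanach E < δ by rw [hd]; exact hδ) hb
  rw [eventually_comap, eventually_atTop] at h
  obtain ⟨K, hK⟩ := h
  refine ⟨K + 1, fun z L hL => ?_⟩
  have h1 := hK L (by omega) (z, z + L) (by simp)
  simp only [add_tsub_cancel_left, ncard_Ico] at h1
  have hL0 : (0 : ℝ) < L := by exact_mod_cast (by omega : 0 < L)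
  rw [div_lt_iff₀ hL0] at h1
  exact h1.le

/-- elements of `E` exceeding another element of `E` by an amount in `[t, t + L)` -/
def bad (E : Set ℕ) (t L x : ℕ) : Prop := ∃ y ∈ E, y + t ≤ x ∧ x < y + t + L

open Classical in
lemma avg (E : Set ℕ) (hd : upperBanach E = 0) (δ : ℝ) (hδ : 0 < δ) (L a : ℕ) :
    ∃ M : ℕ, ∀ F : Finset ℕ, ∃ t ∈ Ico a (a + M),
      ((F.filter (bad E t L)).card : ℝ) ≤ δ * F.card := by
  obtain ⟨K, hK⟩ := sparse E hd (δ / (2 * L + 1)) (by positivity)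
  refine ⟨K + L + 1, fun F => ?_⟩
  set M := K + L + 1 with hM
  have key : ∀ x : ℕ, (((Ico a (a + M)).filter (fun t => bad E t L x)).card : ℝ) ≤ δ * M := by
    intro x
    set z := x - (a + M + L)
    have hs : (Ico a (a + M)).filter (fun t => bad E t L x) ⊆
        (((Ico z (z + (M + L + 1))).filter (· ∈ E)) ×ˢ range L).image
          (fun p : ℕ × ℕ => x - p.1 - p.2) := by
      intro t ht
      simp only [mem_filter, mem_Ico, bad] at ht
      obtain ⟨⟨h1, h2⟩, y, hy, h3, h4⟩ := ht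
      simp only [mem_image, mem_product, mem_filter, mem_Ico, mem_range, Prod.exists]
      exact ⟨y, x - y - t, ⟨⟨⟨by omega, by omega⟩, hy⟩, by omega⟩, by omega⟩
    have h1 := (card_le_card hs).trans card_image_le
    rw [card_product, card_range] at h1
    have h2 := hK z (M + L + 1) (by omega)
    have h3 : (((Ico a (a + M)).filter (fun t => bad E t L x)).card : ℝ) ≤
        δ / (2 * L + 1) * ((M + L + 1 : ℕ) : ℝ) * L := by
      calc _ ≤ ((((Ico z (z + (M + L + 1))).filter (· ∈ E)).card * L : ℕ) : ℝ) := by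
            exact_mod_cast h1
        _ ≤ _ := by push_cast at h2 ⊢; gcongr
    refine h3.trans ?_
    have hML : (L : ℝ) + 1 ≤ M := by exact_mod_cast (by omega : L + 1 ≤ M)
    have hL : (0 : ℝ) ≤ L := by positivity
    push_cast
    rw [div_mul_eq_mul_div, div_mul_eq_mul_div, div_le_iff₀ (by positivity), mul_assoc, mul_assoc]
    apply mul_le_mul_of_nonneg_left _ hδ.le
    nlinarith
  by_contra hc
  push Not at hc
  have hsum : ∑ t ∈ Ico a (a + M), ((F.filter (bad E t L)).card : ℝ) =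
      ∑ x ∈ F, (((Ico a (a + M)).filter (fun t => bad E t L x)).card : ℝ) := by
    simp only [card_filter]
    push_cast
    rw [sum_comm]
  have h1 : ∑ t ∈ Ico a (a + M), δ * (F.card : ℝ) <
      ∑ t ∈ Ico a (a + M), ((F.filter (bad E t L)).card : ℝ) :=
    sum_lt_sum_of_nonempty ⟨a, by simp; omega⟩ hc
  have h2 : ∑ x ∈ F, (((Ico a (a + M)).filter (fun t => bad E t L x)).card : ℝ) ≤
      ∑ x ∈ F, δ * M := sum_le_sum fun x _ => key x
  simp only [sum_const, Nat.card_Ico, add_tsub_cancel_left, nsmul_eq_mul] at h1 h2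
  rw [hsum] at h1
  nlinarith

lemma diag (U : Ultrafilter ℕ) (hU : (U : Filter ℕ) ≤ atTop) (P : ℕ → ℕ → ℕ → Prop)
    (h : ∀ j a, ∃ t, a ≤ t ∧ ∀ᶠ N in (U : Filter ℕ), P j t N) :
    ∃ t : ℕ → ℕ, ∀ n, ∃ N, n ≤ N ∧ (∀ j ≤ n, P j (t j) N) ∧ ∀ j, n < j → N < t j := by
  choose τ hτ1 hτ2 using h
  let s : ℕ → ℕ × Set ℕ := fun n => Nat.rec (0, Set.univ) (fun j p =>
    (sInf (p.2 ∩ {N | P j (τ j p.1) N} ∩ Set.Ici (j + p.1)) + 1, p.2 ∩ {N | P j (τ j p.1) N})) n
  have s1 : ∀ j, (s (j + 1)).1 =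
    sInf ((s j).2 ∩ {N | P j (τ j (s j).1) N} ∩ Set.Ici (j + (s j).1)) + 1 := fun j => rfl
  have s2 : ∀ j, (s (j + 1)).2 = (s j).2 ∩ {N | P j (τ j (s j).1) N} := fun j => rfl
  have m2 : ∀ j, (s j).2 ∈ (U : Filter ℕ) := by
    intro j
    induction j with
    | zero => exact univ_mem
    | succ j ih => rw [s2]; exact inter_mem ih (hτ2 _ _)
  have mem : ∀ j, (s (j + 1)).1 - 1 ∈ (s (j + 1)).2 ∩ Set.Ici (j + (s j).1) := by
    intro j
    rw [s1, Nat.add_sub_cancel, ← s2]
    exact Nat.sInf_mem (Filter.nonempty_of_mem (inter_mem (m2 (j + 1)) (hU (Ici_mem_atTop _))))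
  have pos : ∀ j, 1 ≤ (s (j + 1)).1 := fun j => by rw [s1]; omega
  have mono1 : Monotone fun j => (s j).1 := monotone_nat_of_le_succ fun j => by
    have := (mem j).2
    simp only [Set.mem_Ici] at this
    omega
  have mono2 : Antitone fun j => (s j).2 := antitone_nat_of_succ_le fun j => by
    simp only [s2]; exact Set.inter_subset_left
  refine ⟨fun j => τ j (s j).1, fun n => ⟨(s (n + 1)).1 - 1, ?_, fun j hj => ?_, fun j hj => ?_⟩⟩
  · have := (mem n).2
    simp only [Set.mem_Ici] at this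
    omega
  · have h1 : (s (n + 1)).1 - 1 ∈ (s (j + 1)).2 := mono2 (by omega : j + 1 ≤ n + 1) (mem n).1
    rw [s2] at h1
    exact h1.2
  · have h1 : (s (n + 1)).1 ≤ (s j).1 := mono1 (by omega : n + 1 ≤ j)
    have h2 := hτ1 j (s j).1
    have h3 := pos n
    show (s (n + 1)).1 - 1 < τ j (s j).1
    omega

theorem result (E : Set ℕ) (hE : E.Infinite) (hd : upperBanach E = 0) (ε : ℝ) (hε : 0 < ε) :
    ∃ A ⊆ E, 1 - ε ≤ relUpper E A ∧ ¬ Syndetic (diffSet A) := by
  classical
  let F : ℕ → Finset ℕ := fun N => (Icc 1 N).filter (· ∈ E)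
  let U : Ultrafilter ℕ := Ultrafilter.of atTop
  have hU : (U : Filter ℕ) ≤ atTop := Ultrafilter.of_le _
  obtain ⟨t, ht⟩ := diag U hU
    (fun j t N => (((F N).filter (bad E t j)).card : ℝ) ≤ ε / 2 / 2 ^ j * (F N).card) (by
      intro j a
      obtain ⟨M, hM⟩ := avg E hd (ε / 2 / 2 ^ j) (by positivity) j a
      have h1 : ∀ᶠ N in (U : Filter ℕ), ∃ t ∈ Set.Ico a (a + M),
          (((F N).filter (bad E t j)).card : ℝ) ≤ ε / 2 / 2 ^ j * (F N).card := by
        refine Eventually.of_forall fun N => ?_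
        obtain ⟨t, h1, h2⟩ := hM (F N)
        exact ⟨t, by simpa using h1, by convert h2⟩
      obtain ⟨t, h2, h3⟩ := (Ultrafilter.eventually_exists_mem_iff (Set.finite_Ico _ _)).1 h1
      exact ⟨t, h2.1, h3⟩)
  refine ⟨{x | x ∈ E ∧ ∀ j, ¬ bad E (t j) j x}, fun x hx => hx.1, ?_, ?_⟩
  · set A : Set ℕ := {x | x ∈ E ∧ ∀ j, ¬ bad E (t j) j x} with hA
    apply le_limsup_of_frequently_le
    · rw [frequently_atTop]
      intro n
      obtain ⟨e, he, he0⟩ := hE.exists_gt 0
      obtain ⟨N, hN, h1, h2⟩ := ht (max n e)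
      refine ⟨N, le_trans (le_max_left _ _) hN, ?_⟩
      rw [ncard_Icc, ncard_Icc]
      have hpos : (0 : ℝ) < (F N).card := by
        have : e ∈ F N := by
          simp only [F, mem_filter, mem_Icc]
          exact ⟨⟨he0, le_trans (le_max_right _ _) hN⟩, he⟩
        exact_mod_cast card_pos.2 ⟨e, this⟩
      have hs : F N ⊆ (Icc 1 N).filter (· ∈ A) ∪
          (range (max n e + 1)).biUnion (fun j => (F N).filter (bad E (t j) j)) := by
        intro x hx
        by_cases hxA : x ∈ A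
        · exact mem_union_left _ (mem_filter.2 ⟨(mem_filter.1 hx).1, hxA⟩)
        · refine mem_union_right _ ?_
          have hxE : x ∈ E := (mem_filter.1 hx).2
          have hxN : x ≤ N := (mem_Icc.1 (mem_filter.1 hx).1).2
          simp only [hA, Set.mem_ofPred_eq, not_and, not_forall, not_not] at hxA
          obtain ⟨j, hj⟩ := hxA hxE
          refine mem_biUnion.2 ⟨j, mem_range.2 ?_, mem_filter.2 ⟨hx, hj⟩⟩
          by_contra hc
          have := h2 j (by omega)
          obtain ⟨y, _, h3, _⟩ := hj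
          omega
      have h3 : ((F N).card : ℝ) ≤ ((Icc 1 N).filter (· ∈ A)).card +
          ∑ j ∈ range (max n e + 1), (((F N).filter (bad E (t j) j)).card : ℝ) := by
        exact_mod_cast (card_le_card hs).trans ((card_union_le _ _).trans
          (Nat.add_le_add_left card_biUnion_le _))
      have h4 : ∑ j ∈ range (max n e + 1), (((F N).filter (bad E (t j) j)).card : ℝ) ≤
          ε * (F N).card := by
        calc _ ≤ ∑ j ∈ range (max n e + 1), ε / 2 / 2 ^ j * ((F N).card : ℝ) :=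
              sum_le_sum fun j hj => h1 j (by have := mem_range.1 hj; omega)
          _ = (∑ j ∈ range (max n e + 1), ε / 2 / 2 ^ j) * ((F N).card : ℝ) := by rw [sum_mul]
          _ ≤ _ := by
              gcongr
              exact ((summable_geometric_two' ε).sum_le_tsum _
                (fun j _ => by positivity)).trans (tsum_geometric_two' ε).le
      have h5 : (1 - ε) * ((F N).card : ℝ) ≤ ((Icc 1 N).filter (· ∈ A)).card := by linarith
      rw [← le_div_iff₀ hpos] at h5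
      convert h5
    · refine isBoundedUnder_of ⟨1, fun N => ?_⟩
      apply div_le_one_of_le₀ _ (by positivity)
      exact_mod_cast Set.ncard_le_ncard (Set.inter_subset_inter_left _ fun x (hx : x ∈ {x | x ∈ E ∧ ∀ j, ¬ bad E (t j) j x}) => hx.1)
        ((Set.finite_Icc _ _).subset Set.inter_subset_right)
  · rintro ⟨L, -, hL⟩
    obtain ⟨s, ⟨x, hx, y, hy, rfl⟩, h1, h2⟩ := hL (t L)
    exact hx.2 L ⟨y, hy.1, by omega, by omega⟩

end Pool.Agent.Results.MP_5a03e9_nt.NoSparseSet
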